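import Pool.Agent.Helper88.GU.St

set_option autoImplicit false

namespace Pool.Agent.Helper26.GU2

open Polynomial
open Pool.Agent.Helper91.GU Pool.Agent.Helper88.GU

universe u

/-- YD: the theorem for finitely generated algebras -/
theorem hYD (hB7 : StB7.{u}) (hVA : StVA.{u}) (hVB : StVB.{u}) (hXM : StXM.{u})
    (hXN : StXN.{u}) (hYA : StYA.{u}) (hYC : StYC.{u}) : Pool.Agent.Helper88.GU.StYD.{u} := by
  intro R _ _ _ d n s hs hd hdim hdn hfac m e x k he hk hx hiso hor v w hvw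
  obtain ⟨G, hG1, hG2⟩ := hYA R n m e x k he hx
  have hgen : Algebra.adjoin R (Set.range
      (fun l => (⟨x l, Algebra.subset_adjoin ⟨l, rfl⟩⟩ : Algebra.adjoin R (Set.range x)))) = ⊤ := by
    have h := Algebra.adjoin_adjoin_coe_preimage (R := R) (s := Set.range x)
    convert h using 2
    ext a
    constructor
    · rintro ⟨l, rfl⟩
      exact ⟨l, rfl⟩
    · rintro ⟨l, hl⟩
      exact ⟨l, Subtype.ext hl⟩
  have hSGr : SGr R (Algebra.adjoin R (Set.range x)) G
      (fun l => (⟨x l, Algebra.subset_adjoin ⟨l, rfl⟩⟩ : Algebra.adjoin R (Set.range x))) k :=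
    ⟨hgen, hG1, hk, hG2, hiso⟩
  have hFG : (Algebra.adjoin R (Set.range x)).FG :=
    Subalgebra.fg_def.2 ⟨Set.range x, Set.finite_range x, rfl⟩
  haveI : Algebra.FiniteType R (Algebra.adjoin R (Set.range x)) :=
    (Subalgebra.fg_iff_finiteType _).1 hFG
  haveI : IsNoetherianRing (Algebra.adjoin R (Set.range x)) :=
    Algebra.FiniteType.isNoetherianRing R _
  obtain ⟨s₀, hs₀⟩ := hYC R d n hd hdim (Algebra.adjoin R (Set.range x)) hFG
  have hfacA : IsUnit ((s + 1).factorial : Algebra.adjoin R (Set.range x)) := by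
    have h := hfac.map (algebraMap R (Algebra.adjoin R (Set.range x)))
    rwa [map_natCast] at h
  rcases hor with hinf | hdimA
  · refine hXM R (Algebra.adjoin R (Set.range x)) G m _ k hSGr ⊤ (Or.inl rfl) (hVA R hinf) s₀
      (d + n) s hs hs₀ hdn hfacA v w hvw ?_ ?_ ?_
    · rw [Ideal.map_top]; trivial
    · intro j
      rw [Ideal.map_top]; trivial
    · rw [Ideal.map_top]; trivial
  · obtain ⟨v', w', h1, h2, h3, h4⟩ := hXN (Algebra.adjoin R (Set.range x)) _ s hdimA v w hvw
    obtain ⟨⟨-, -, htrans, -, hum, -⟩, -⟩ :=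
      (⟨(hB7 (Algebra.adjoin R (Set.range x)) (Algebra.adjoin R (Set.range x)) (RingHom.id _)).1
        (Unit ⊕ Fin (s + 1)), trivial⟩ : _ ∧ True)
    have hum' : Um (row v' w') := hum _ _ h1 hvw
    have h5 := hXM R (Algebra.adjoin R (Set.range x)) G m _ k hSGr
      (IsLocalRing.maximalIdeal R) (Or.inr rfl) (hVB R) s₀
      (d + n) s hs hs₀ hdn hfacA v' w' hum' h2 h3 h4
    exact htrans _ _ _ h1 h5

end Pool.Agent.Helper26.GU2
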